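import Mathlib

/-!
# The LL-domination game number is always odd

For every nonempty finite graph without isolated vertices the LL-domination game number is odd,
and the Z-domination game number is at most the LL-domination game number.  Hence
`γ_Zg < γ_LLg` for every such graph (in particular every tree with at least two vertices)
whose Z-domination game number is even.
-/

namespace Pool.Agent.Results.MP_3a5066_co.LLNumberOdd

/-- A two-player game on vertex sets.  `Ends legal next k d A` says: from the position `A`
(with Dominator to move if `d = true`, Staller to move if `d = false`), Dominator can make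
the game end (no legal move is left) after at most `k` further moves. -/
def Ends {V : Type} (legal : Set V → V → Prop) (next : Set V → V → Set V) :
    ℕ → Bool → Set V → Prop
  | 0, _, A => ∀ v, ¬ legal A v
  | k + 1, true, A => (∀ v, ¬ legal A v) ∨ ∃ v, legal A v ∧ Ends legal next k false (next A v)
  | k + 1, false, A => ∀ v, legal A v → Ends legal next k true (next A v)

/-- Z-game: `v` is legal iff `N(v)` is not contained in the union `C` of the closed
neighbourhoods of the vertices chosen so far. -/
def zLegal {V : Type} (G : SimpleGraph V) (C : Set V) (v : V) : Prop :=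
  ¬ G.neighborSet v ⊆ C

/-- Z-game: choosing `v` adds the closed neighbourhood of `v`. -/
def zNext {V : Type} (G : SimpleGraph V) (C : Set V) (v : V) : Set V :=
  C ∪ insert v (G.neighborSet v)

/-- LL-game: `v` is legal iff `N[v]` is not contained in the union `A` of the open
neighbourhoods of the vertices chosen so far. -/
def llLegal {V : Type} (G : SimpleGraph V) (A : Set V) (v : V) : Prop :=
  ¬ insert v (G.neighborSet v) ⊆ A

/-- LL-game: choosing `v` adds the open neighbourhood of `v`. -/
def llNext {V : Type} (G : SimpleGraph V) (A : Set V) (v : V) : Set V :=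
  A ∪ G.neighborSet v

/-- The Z-domination game number: Dominator starts. -/
noncomputable def zNumber {V : Type} (G : SimpleGraph V) : ℕ :=
  sInf {k | Ends (zLegal G) (zNext G) k true ∅}

/-- The LL-domination game number: Dominator starts. -/
noncomputable def llNumber {V : Type} (G : SimpleGraph V) : ℕ :=
  sInf {k | Ends (llLegal G) (llNext G) k true ∅}

/-! ### The LL-game can always be ended by Dominator -/

theorem ll_finite {V : Type} [Finite V] (G : SimpleGraph V) (hG : ∀ v, ∃ w, G.Adj v w) :
    ∀ (n : ℕ) (A : Set V), (Aᶜ).ncard ≤ n → Ends (llLegal G) (llNext G) (2 * n) true A := by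
  intro n
  induction n with
  | zero =>
    intro A hA
    have h0 : Aᶜ = ∅ := by
      have : (Aᶜ).ncard = 0 := by omega
      exact (Set.ncard_eq_zero (Set.toFinite _)).1 this
    have hu : A = Set.univ := Set.compl_empty_iff.1 h0
    intro v hv
    apply hv
    rw [hu]
    exact Set.subset_univ _
  | succ n ih =>
    intro A hA
    show Ends (llLegal G) (llNext G) ((2 * n + 1) + 1) true A
    by_cases hu : A = Set.univ
    · left
      intro v hv
      apply hv
      rw [hu]
      exact Set.subset_univ _
    · right
      obtain ⟨x, hx⟩ := (Set.ne_univ_iff_exists_notMem A).1 hu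
      obtain ⟨w, hw⟩ := hG x
      refine ⟨w, ?_, ?_⟩
      · intro hsub
        exact hx (hsub (Set.mem_insert_of_mem _ (by
          rw [SimpleGraph.mem_neighborSet]; exact hw.symm)))
      · show ∀ v, llLegal G (llNext G A w) v →
          Ends (llLegal G) (llNext G) (2 * n) true (llNext G (llNext G A w) v)
        intro v _
        apply ih
        have hss : (llNext G (llNext G A w) v)ᶜ ⊂ Aᶜ := by
          refine (Set.ssubset_iff_of_subset ?_).2 ⟨x, hx, ?_⟩
          · intro y hy hyA
            exact hy (Or.inl (Or.inl hyA))
          · intro hxc
            exact hxc (Or.inl (Or.inr (by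
              rw [SimpleGraph.mem_neighborSet]; exact hw.symm)))
        have := Set.ncard_lt_ncard hss (Set.toFinite _)
        omega

/-- In the LL-game, a position without legal moves is the whole vertex set. -/
theorem ll_over {V : Type} (G : SimpleGraph V) {A : Set V} (h : ∀ v, ¬ llLegal G A v) (x : V) :
    x ∈ A := by
  by_contra hx
  exact h x (fun hsub => hx (hsub (Set.mem_insert _ _)))

/-- Staller never has to make the last move of the LL-game. -/
theorem staller_avoids {V : Type} (G : SimpleGraph V) {A : Set V}
    (h : Ends (llLegal G) (llNext G) 1 false A) : ∀ v, ¬ llLegal G A v := by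
  by_contra hno
  push Not at hno
  obtain ⟨v, hv⟩ := hno
  obtain ⟨x, _, hx⟩ := Set.not_subset.1 hv
  have hlx : llLegal G A x := fun hsub => hx (hsub (Set.mem_insert _ _))
  have h2 : ∀ y, ¬ llLegal G (llNext G A x) y := h x hlx
  rcases ll_over G h2 x with h3 | h3
  · exact hx h3
  · exact G.loopless.irrefl x h3

/-- Parity: Dominator makes the last move of the LL-game. -/
theorem parity {V : Type} (G : SimpleGraph V) : ∀ (j : ℕ) (A : Set V),
    (Ends (llLegal G) (llNext G) (2 * j + 1) false A →
      Ends (llLegal G) (llNext G) (2 * j) false A) ∧
    (Ends (llLegal G) (llNext G) (2 * j + 2) true A →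
      Ends (llLegal G) (llNext G) (2 * j + 1) true A) := by
  intro j
  induction j with
  | zero =>
    intro A
    have h1 : ∀ B : Set V, Ends (llLegal G) (llNext G) 1 false B →
        Ends (llLegal G) (llNext G) 0 false B := fun B h => staller_avoids G h
    refine ⟨h1 A, ?_⟩
    rintro (h | ⟨v, hv, h⟩)
    · exact Or.inl h
    · exact Or.inr ⟨v, hv, h1 _ h⟩
  | succ j ih =>
    intro A
    have h1 : ∀ B : Set V, Ends (llLegal G) (llNext G) (2 * (j + 1) + 1) false B →
        Ends (llLegal G) (llNext G) (2 * (j + 1)) false B := by
      intro B h
      show ∀ v, llLegal G B v → Ends (llLegal G) (llNext G) (2 * j + 1) true (llNext G B v)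
      intro v hv
      exact (ih (llNext G B v)).2 (h v hv)
    refine ⟨h1 A, ?_⟩
    rintro (h | ⟨v, hv, h⟩)
    · exact Or.inl h
    · exact Or.inr ⟨v, hv, h1 _ h⟩

/-- Dominator can imitate the LL-game in the Z-game. -/
theorem imitate {V : Type} (G : SimpleGraph V) : ∀ (k : ℕ) (d : Bool) (A C : Set V), A ⊆ C →
    Ends (llLegal G) (llNext G) k d A → Ends (zLegal G) (zNext G) k d C := by
  intro k
  induction k with
  | zero =>
    intro d A C hAC h v hv
    apply hv
    intro x _
    exact hAC (ll_over G h x)
  | succ k ih =>
    intro d A C hAC h
    cases d with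
    | false =>
      intro v hv
      have hv' : llLegal G A v := by
        intro hsub
        apply hv
        intro x hx
        exact hAC (hsub (Set.mem_insert_of_mem _ hx))
      refine ih true (llNext G A v) (zNext G C v) ?_ (h v hv')
      rintro x (hx | hx)
      · exact Or.inl (hAC hx)
      · exact Or.inr (Set.mem_insert_of_mem _ hx)
    | true =>
      by_cases hno : ∀ v, ¬ zLegal G C v
      · exact Or.inl hno
      · rcases h with h | ⟨v, _, h⟩
        · left
          intro v hv
          apply hv
          intro x _
          exact hAC (ll_over G h x)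
        · right
          by_cases hvl : zLegal G C v
          · refine ⟨v, hvl, ih false (llNext G A v) (zNext G C v) ?_ h⟩
            rintro x (hx | hx)
            · exact Or.inl (hAC hx)
            · exact Or.inr (Set.mem_insert_of_mem _ hx)
          · push Not at hno
            obtain ⟨w, hw⟩ := hno
            refine ⟨w, hw, ih false (llNext G A v) (zNext G C w) ?_ h⟩
            have hvs : G.neighborSet v ⊆ C := by
              by_contra hc; exact hvl hc
            rintro x (hx | hx)
            · exact Or.inl (hAC hx)
            · exact Or.inl (hvs hx)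

theorem general {V : Type} [Finite V] [Nonempty V] (G : SimpleGraph V)
    (hG : ∀ v, ∃ w, G.Adj v w) : Odd (llNumber G) ∧ zNumber G ≤ llNumber G ∧
      (Even (zNumber G) → zNumber G < llNumber G) := by
  have hmem : Ends (llLegal G) (llNext G) (llNumber G) true ∅ :=
    Nat.sInf_mem (s := {k | Ends (llLegal G) (llNext G) k true ∅})
      ⟨_, ll_finite G hG _ ∅ le_rfl⟩
  have hodd : Odd (llNumber G) := by
    rw [← Nat.not_even_iff_odd]
    rintro ⟨j, hj⟩
    obtain ⟨x⟩ := ‹Nonempty V›
    cases j with
    | zero =>
      rw [hj] at hmem
      exact absurd (ll_over G hmem x) (by simp)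
    | succ j =>
      have h2 : llNumber G = 2 * j + 2 := by omega
      rw [h2] at hmem
      have h3 := (parity G j ∅).2 hmem
      have h4 : llNumber G ≤ 2 * j + 1 :=
        Nat.sInf_le (s := {k | Ends (llLegal G) (llNext G) k true ∅}) h3
      omega
  have hle : zNumber G ≤ llNumber G :=
    Nat.sInf_le (s := {k | Ends (zLegal G) (zNext G) k true ∅})
      (imitate G _ true ∅ ∅ le_rfl hmem)
  refine ⟨hodd, hle, ?_⟩
  intro hev
  rcases Nat.lt_or_ge (zNumber G) (llNumber G) with h | h
  · exact h
  · have : zNumber G = llNumber G := le_antisymm hle h
    rw [this] at hev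
    exact absurd hodd (Nat.not_odd_iff_even.2 hev)

/-- (1) On every finite nonempty graph without isolated vertices the LL-domination game number is
odd, the Z-domination game number is at most the LL-domination game number, and it is strictly
smaller whenever it is even.  (2) In particular, the strict inequality asked for holds for every
tree with at least two vertices whose Z-domination game number is even. -/
theorem result :
    (∀ (V : Type) [Finite V] [Nonempty V] (G : SimpleGraph V), (∀ v, ∃ w, G.Adj v w) →
      Odd (llNumber G) ∧ zNumber G ≤ llNumber G ∧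
        (Even (zNumber G) → zNumber G < llNumber G)) ∧
    (∀ (V : Type) [Finite V] (T : SimpleGraph V), T.IsTree → 2 ≤ Nat.card V →
      Odd (llNumber T) ∧ (Even (zNumber T) → zNumber T < llNumber T)) := by
  refine ⟨fun V _ _ G hG => general G hG, ?_⟩
  intro V _ T hT hcard
  have : Nonempty V := (Nat.card_pos_iff.1 (by omega)).1
  have : Nontrivial V := Finite.one_lt_card_iff_nontrivial.1 (by omega)
  have hG : ∀ v, ∃ w, T.Adj v w := by
    intro v
    obtain ⟨w, hw⟩ := exists_ne v
    obtain ⟨p⟩ := hT.connected.preconnected v w
    cases p with
    | nil => exact absurd rfl hw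
    | cons h _ => exact ⟨_, h⟩
  have := general T hG
  exact ⟨this.1, this.2.2⟩

end Pool.Agent.Results.MP_3a5066_co.LLNumberOdd
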